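import Pool.Agent.R456.Palin

/-!
# Doubly-derived palintiples: the multiplier is the lower base

Let `p` be a shifted-symmetric `(n,b)`-palintiple and let `q` be a doubly-derived
`(n',b')`-palintiple from `p`. Then `n' = b`.

The proof. The digits of `p` are `d_i = α f_i + β f_{i+1}`, where `f` is a symmetric sequence, the
carries are `c_i = h f_i`, `h b = n α - β` and `α = h + n β`. The column equations of the derived
palintiple say that the product of the polynomial `∑ f_i X^i` with a certain cubic polynomial is
divisible by `m = n' ^ 2 - 1`. By the lemma of Gauss `m` divides `E β (β + n' α)`, with `E` the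
greatest common divisor of the `f_i`. As `α E < n'` and `h E < n`, an elementary inequality gives
`n' = b`.
-/

set_option autoImplicit false

namespace Pool.Agent.Results.MP_6bbb8b_nt.MultiplierIsBase

open Finset

/-- The number with base-`b` digits `d k, ..., d 0` (`d k` leading) is an `(n,b)`-palintiple. -/
structure IsPalintiple (n b k : ℕ) (d : ℕ → ℕ) : Prop where
  base : 3 ≤ b
  one_lt : 1 < n
  lt_base : n < b
  len : 1 ≤ k
  digit : ∀ j, j ≤ k → d j < b
  ne_zero : d 0 ≠ 0
  mul_rev : ∑ j ∈ range (k + 1), d j * b ^ j = n * ∑ j ∈ range (k + 1), d (k - j) * b ^ j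

/-- The carries produced when the reversal, with base-`b` digits `d 0, ..., d k` (`d 0` leading), is
multiplied by `n` column by column. -/
def carry (n b k : ℕ) (d : ℕ → ℕ) : ℕ → ℕ
  | 0 => 0
  | j + 1 => (n * d (k - j) + carry n b k d j) / b

/-- Shifted-symmetric: `c_j = c_{k - j + 1}` for `0 ≤ j ≤ k`. -/
def ShiftedSymmetric (n b k : ℕ) (d : ℕ → ℕ) : Prop :=
  ∀ j, j ≤ k → carry n b k d j = carry n b k d (k - j + 1)

/-- The `(n',b')`-palintiple with digits `d' (k + 2), ..., d' 0` is doubly-derived from the number
with digits `d k, ..., d 0`: its carries are `(0, d k, ..., d 0, 0)`. -/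
structure DoublyDerived (k : ℕ) (d : ℕ → ℕ) (n' b' : ℕ) (d' : ℕ → ℕ) : Prop where
  pal : IsPalintiple n' b' (k + 2) d'
  first : carry n' b' (k + 2) d' 0 = 0
  inner : ∀ j, j ≤ k → carry n' b' (k + 2) d' (j + 1) = d j
  last : carry n' b' (k + 2) d' (k + 2) = 0

/-- Uniqueness of the expansion in base `b`. -/
theorem unique_digits {b : ℕ} (hb : 0 < b) : ∀ (i : ℕ) (x y : ℕ → ℕ) (z : ℕ),
    (∀ j, j < i → x j < b) → (∀ j, j < i → y j < b) →
    ∑ j ∈ range i, x j * b ^ j = ∑ j ∈ range i, y j * b ^ j + z * b ^ i →
    (∀ j, j < i → x j = y j) ∧ z = 0 := by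
  intro i
  induction i with
  | zero =>
    intro x y z _ _ h
    simp at h
    exact ⟨fun j hj => absurd hj (Nat.not_lt_zero _), h.symm⟩
  | succ i ih =>
    intro x y z hx hy h
    rw [Finset.sum_range_succ', Finset.sum_range_succ'] at h
    have e1 : ∀ f : ℕ → ℕ, ∑ j ∈ range i, f (j + 1) * b ^ (j + 1) =
        b * ∑ j ∈ range i, f (j + 1) * b ^ j := by
      intro f
      rw [Finset.mul_sum]
      exact Finset.sum_congr rfl fun j _ => by ring
    rw [e1, e1, pow_zero, mul_one, mul_one] at h
    have h2 : b * ∑ j ∈ range i, x (j + 1) * b ^ j + x 0 =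
        b * (∑ j ∈ range i, y (j + 1) * b ^ j + z * b ^ i) + y 0 := by
      rw [h, pow_succ]; ring
    have h3 : x 0 = y 0 := by
      have := congrArg (· % b) h2
      simp only [Nat.mul_add_mod] at this
      rwa [Nat.mod_eq_of_lt (hx 0 (Nat.succ_pos _)), Nat.mod_eq_of_lt (hy 0 (Nat.succ_pos _))] at this
    have h4 : ∑ j ∈ range i, x (j + 1) * b ^ j =
        ∑ j ∈ range i, y (j + 1) * b ^ j + z * b ^ i := by
      rw [h3] at h2
      exact Nat.eq_of_mul_eq_mul_left hb (Nat.add_right_cancel h2)
    obtain ⟨h5, h6⟩ := ih (fun j => x (j + 1)) (fun j => y (j + 1)) z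
      (fun j hj => hx _ (by omega)) (fun j hj => hy _ (by omega)) h4
    refine ⟨fun j hj => ?_, h6⟩
    rcases j with _ | j
    · exact h3
    · exact h5 j (by omega)

/-- The column equations. -/
theorem columns {n b k : ℕ} {d : ℕ → ℕ} (h : IsPalintiple n b k d) :
    (∀ j, j ≤ k → n * d (k - j) + carry n b k d j = d j + b * carry n b k d (j + 1)) ∧
      carry n b k d (k + 1) = 0 := by
  have hb : 0 < b := by have := h.base; omega
  have h1 : ∀ j, n * d (k - j) + carry n b k d j =
      (n * d (k - j) + carry n b k d j) % b + b * carry n b k d (j + 1) := by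
    intro j
    have : carry n b k d (j + 1) = (n * d (k - j) + carry n b k d j) / b := rfl
    rw [this]
    exact (Nat.mod_add_div _ _).symm
  have h2 : ∀ i, n * ∑ j ∈ range i, d (k - j) * b ^ j =
      ∑ j ∈ range i, ((n * d (k - j) + carry n b k d j) % b) * b ^ j
        + carry n b k d i * b ^ i := by
    intro i
    induction i with
    | zero => simp [carry]
    | succ i ih =>
      rw [Finset.sum_range_succ, Finset.sum_range_succ, mul_add, ih]
      have := h1 i
      calc ∑ j ∈ range i, ((n * d (k - j) + carry n b k d j) % b) * b ^ j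
            + carry n b k d i * b ^ i + n * (d (k - i) * b ^ i)
          = ∑ j ∈ range i, ((n * d (k - j) + carry n b k d j) % b) * b ^ j
            + (n * d (k - i) + carry n b k d i) * b ^ i := by ring
        _ = ∑ j ∈ range i, ((n * d (k - j) + carry n b k d j) % b) * b ^ j
            + ((n * d (k - i) + carry n b k d i) % b + b * carry n b k d (i + 1)) * b ^ i := by
          rw [← this]
        _ = _ := by rw [pow_succ]; ring
  have h3 := h2 (k + 1)
  rw [← h.mul_rev] at h3
  obtain ⟨h4, h5⟩ := unique_digits hb (k + 1) d (fun j => (n * d (k - j) + carry n b k d j) % b)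
    (carry n b k d (k + 1)) (fun j hj => h.digit j (by omega)) (fun j _ => Nat.mod_lt _ hb) h3
  refine ⟨fun j hj => ?_, h5⟩
  have := h1 j
  rw [h4 j (by omega)]
  exact this

/-- The carries are less than the multiplier. -/
theorem carry_lt {n b k : ℕ} {d : ℕ → ℕ} (h : IsPalintiple n b k d) :
    ∀ j, carry n b k d j < n := by
  intro j
  induction j with
  | zero => have := h.one_lt; simp only [carry]; omega
  | succ j ih =>
    have hb : 0 < b := by have := h.base; omega
    have : carry n b k d (j + 1) = (n * d (k - j) + carry n b k d j) / b := rfl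
    rw [this, Nat.div_lt_iff_lt_mul hb]
    have h1 : d (k - j) + 1 ≤ b := h.digit _ (Nat.sub_le _ _)
    calc n * d (k - j) + carry n b k d j < n * d (k - j) + n := by omega
      _ = n * (d (k - j) + 1) := by ring
      _ ≤ n * b := Nat.mul_le_mul_left _ h1

/-- The multiplier of a doubly-derived palintiple is the lower base: there is no shifted-symmetric
`(n,b)`-palintiple with a doubly-derived `(n',b')`-palintiple such that `n' ≠ b`. -/
theorem result (n b k : ℕ) (d : ℕ → ℕ) (n' b' : ℕ) (d' : ℕ → ℕ)
    (hp : IsPalintiple n b k d) (hs : ShiftedSymmetric n b k d)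
    (hd : DoublyDerived k d n' b' d') : n' = b := by
  obtain ⟨col, clast⟩ := columns hp
  obtain ⟨col', clast'⟩ := columns hd.pal
  set c := carry n b k d with hc
  set c' := carry n' b' (k + 2) d' with hc'
  have hn := hp.one_lt
  have hnb := hp.lt_base
  have hk := hp.len
  have c0 : c 0 = 0 := by rw [hc]; rfl
  have hsym : ∀ i, i ≤ k + 1 → c (k + 1 - i) = c i := by
    intro i hi
    rcases Nat.lt_or_ge k i with h | h
    · have : i = k + 1 := by omega
      subst this
      rw [Nat.sub_self, c0, clast]
    · have := hs i h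
      rw [← hc] at this
      have e : k - i + 1 = k + 1 - i := by omega
      rw [e] at this
      exact this.symm
  -- the first carry is positive
  have cpos : 0 < c 1 := by
    by_contra hcon
    have h0 : c 1 = 0 := by omega
    have h1 := col 0 (by omega)
    rw [c0, zero_add, h0, Nat.sub_zero] at h1
    have h2 := col k le_rfl
    rw [clast, Nat.sub_self] at h2
    have h3 : c k = 0 := by
      have := hsym 1 (by omega)
      rw [Nat.add_sub_cancel] at this
      rw [this, h0]
    rw [h3] at h2
    have h4 := hp.ne_zero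
    have h5 : n * (n * d 0) = d 0 := by
      have e1 : d k = n * d 0 := by omega
      have e2 : n * d k = d 0 := by omega
      rw [← e1]; exact e2
    have h6 : 0 < d 0 := by omega
    nlinarith
  have c1 : c 1 < n := carry_lt hp 1
  -- the equations over the integers
  have hdZ : ∀ i, i ≤ k → ((n : ℤ) ^ 2 - 1) * (d i : ℤ) =
      ((n : ℤ) * b - 1) * (c i : ℤ) + ((b : ℤ) - n) * (c (i + 1) : ℤ) := by
    intro i hi
    have e1 : (n : ℤ) * d (k - i) + c i = d i + b * c (i + 1) := by exact_mod_cast col i hi
    have e2 : (n : ℤ) * d (k - (k - i)) + c (k - i) = d (k - i) + b * c (k - i + 1) := by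
      exact_mod_cast col (k - i) (by omega)
    have e3 : k - (k - i) = i := by omega
    have e4 : c (k - i) = c (i + 1) := by
      have := hsym (i + 1) (by omega)
      have e : k + 1 - (i + 1) = k - i := by omega
      rw [e] at this; exact this
    have e5 : c (k - i + 1) = c i := by
      have := hsym i (by omega)
      have e : k + 1 - i = k - i + 1 := by omega
      rw [e] at this; exact this
    rw [e3, e4, e5] at e2
    linear_combination (n : ℤ) * e2 + e1
  have hcolZ : ∀ j, j ≤ k + 2 → ((n' : ℤ) ^ 2 - 1) ∣
      (n' : ℤ) * ((b' : ℤ) * (c' (k + 3 - j) : ℤ) - (c' (k + 2 - j) : ℤ))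
        + ((b' : ℤ) * (c' (j + 1) : ℤ) - (c' j : ℤ)) := by
    intro j hj
    have e1 : (n' : ℤ) * d' (k + 2 - j) + c' j = d' j + b' * c' (j + 1) := by
      exact_mod_cast col' j hj
    have e2 : (n' : ℤ) * d' (k + 2 - (k + 2 - j)) + c' (k + 2 - j) =
        d' (k + 2 - j) + b' * c' (k + 2 - j + 1) := by
      exact_mod_cast col' (k + 2 - j) (by omega)
    have e3 : k + 2 - (k + 2 - j) = j := by omega
    have e4 : k + 2 - j + 1 = k + 3 - j := by omega
    rw [e3, e4] at e2
    exact ⟨(d' j : ℤ), by linear_combination (-(n' : ℤ)) * e2 - e1⟩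
  have hN : (d k : ℤ) + 1 ≤ n' := by
    have h1 := carry_lt hd.pal (k + 1)
    rw [hd.inner k le_rfl] at h1
    exact_mod_cast h1
  have hfin := Pool.Agent.R456.Palin.core (n := n) (b := b) (N := n') (B := b') (k := k)
    (d := fun i => (d i : ℤ)) (c := fun i => (c i : ℤ)) (ch := fun i => (c' i : ℤ))
    (by exact_mod_cast hn) (by exact_mod_cast hnb) hk (by simp [c0]) (by exact_mod_cast cpos)
    (by have : (c 1 : ℤ) < n := by exact_mod_cast c1
        omega)
    (fun i hi => by rw [hsym i hi]) hdZ hN
    (by have := hd.first; rw [← hc'] at this; rw [this]; rfl)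
    (fun j hj => by have := hd.inner j hj; rw [← hc'] at this; rw [this])
    (by have := hd.last; rw [← hc'] at this; rw [this]; rfl)
    (by rw [show c' (k + 3) = 0 from clast']; rfl) hcolZ
  exact_mod_cast hfin

end Pool.Agent.Results.MP_6bbb8b_nt.MultiplierIsBase
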